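import Mathlib

/-!
# Project gl (MP_51d945_co): asymmetric and symmetric bipartite Turan numbers

For a bipartite graph `H` with a proper colouring `c : V → Bool` (colour `true` = class `X` = rows, colour `false` = class `Y` =
columns) let `ex*(n, H) = exs n H c Set.univ` be the maximal size of a subset `B` of `[n] × [n]` without an ordered copy of `H`.

THEOREM I (gluing criterion). For connected `H` with at least `3` vertices the following are equivalent: `ex*(n, H) = O(ex(n, H))`; for all `v`: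
`ex(n, two copies of H joined by an edge between the copies of v) = O(ex(n, H))`; the same for some `v`; `H` is contained in a connected bipartite graph
`K` with an automorphism exchanging the classes and `ex(n, K) = O(ex(n, H))`. `Q1` holds iff `ex(n, H and K joined by an edge) = O(ex(n, H) + ex(n, K))`
for all connected bipartite `H`, `K`.
THEOREM II (atoms). All `H` with a class of size at most `3` satisfy `ex* = O(ex)`; this property is preserved by clique sums; `Q1` holds
iff it holds for all `H` without clique separators and with both classes of size at least `4`.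

## Rules
File `Pool/Agent/<seat>/GL/XX.lean`:

  import Pool.Agent.helper55.GL.Spec
  set_option autoImplicit false
  namespace Pool.Agent.GL
  open SimpleGraph
  theorem XX (hYY : YY_stmt) ... : XX_stmt := ...
  end Pool.Agent.GL

Hypotheses: other statements of this file (no circles). Auxiliary lemmas are prefixed `XX_`. No sorry, no double quotes.
All types of vertices are in `Type`. `H ⊑ K` (`SimpleGraph.IsContained`): there is an injective homomorphism (`SimpleGraph.Copy`). Mathlib:
`SimpleGraph.extremalNumber`, `card_edgeFinset_le_extremalNumber`, `IsContained.of_extremalNumber_lt_card_edgeFinset`, `extremalNumber_le_iff` (with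
`Fintype.card_fin`), `IsContained.extremalNumber_le`, `antitoneOn_extremalNumber_div_choose_two`.
-/

set_option autoImplicit false

namespace Pool.Agent.GL

open SimpleGraph

/-! ## Definitions -/

/-- The bipartite graph of a relation (as in the frozen statement). -/
def Gr {X Y : Type} (R : X → Y → Prop) : SimpleGraph (X ⊕ Y) :=
  SimpleGraph.fromRel (fun a b : X ⊕ Y => ∃ x y, a = Sum.inl x ∧ b = Sum.inr y ∧ R x y)

/-- `Q1`, exactly as in the frozen statement. -/
def Q1 : Prop :=
    ∀ (X Y : Type) [Fintype X] [Fintype Y] (R : X → Y → Prop),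
      ∃ C : ℝ, ∃ N : ℕ, ∀ n : ℕ, N ≤ n → ∀ B : Finset (Fin n × Fin n),
        (¬ ∃ f : X ↪ Fin n, ∃ g : Y ↪ Fin n, ∀ x y, R x y → (f x, g y) ∈ B) →
        (B.card : ℝ) ≤ C * (SimpleGraph.extremalNumber n (Gr R) : ℝ)

/-- Turan numbers -/
noncomputable abbrev ex (n : ℕ) {W : Type} (H : SimpleGraph W) : ℕ := extremalNumber n H

/-- `c` is a proper colouring. -/
def Pr {V : Type} (H : SimpleGraph V) (c : V → Bool) : Prop := ∀ a b, H.Adj a b → c a ≠ c b

/-- `B` contains an ordered copy of the part of `H` on the set `S`: the vertices of colour `true` are mapped to rows, the others to columns. -/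
def Cp {V : Type} (H : SimpleGraph V) (c : V → Bool) (S : Set V) {n : ℕ}
    (B : Finset (Fin n × Fin n)) : Prop :=
  ∃ φ : V → Fin n, (∀ a ∈ S, ∀ b ∈ S, c a = c b → φ a = φ b → a = b) ∧
    ∀ a ∈ S, ∀ b ∈ S, H.Adj a b → c a = true → c b = false → (φ a, φ b) ∈ B

open Classical in
/-- The asymmetric Turan number of the part of `H` on `S`. -/
noncomputable def exs (n : ℕ) {V : Type} (H : SimpleGraph V) (c : V → Bool) (S : Set V) : ℕ :=
  ((Finset.univ : Finset (Finset (Fin n × Fin n))).filter (fun B => ¬ Cp H c S B)).sup Finset.card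

/-- `ex*(n, H) = O(ex(n, H))` -/
def QG {V : Type} (H : SimpleGraph V) (c : V → Bool) : Prop :=
  ∃ C N : ℕ, ∀ n, N ≤ n → exs n H c Set.univ ≤ C * ex n H

/-- `H` and `K` (disjoint) joined by the edge `v w` -/
def Join {V W : Type} (H : SimpleGraph V) (K : SimpleGraph W) (v : V) (w : W) :
    SimpleGraph (V ⊕ W) :=
  (H ⊕g K) ⊔ SimpleGraph.edge (Sum.inl v) (Sum.inr w)

/-- Joining two copies of `H` at `v` does not change the order of magnitude. -/
def JB {V : Type} (H : SimpleGraph V) (v : V) : Prop :=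
  ∃ C : ℕ, ∀ n, ex n (Join H H v v) ≤ C * ex n H

/-- `H` is contained in a connected bipartite graph `K` with an automorphism exchanging the classes and `ex(n, K) = O(ex(n, H))`. -/
def Sy {V : Type} (H : SimpleGraph V) : Prop :=
  ∃ (W : Type) (_ : Fintype W) (K : SimpleGraph W) (d : W → Bool) (σ : K ≃g K),
    K.Connected ∧ Pr K d ∧ (∀ w, d (σ w) = !d w) ∧ H ⊑ K ∧ ∃ C : ℕ, ∀ n, ex n K ≤ C * ex n H

/-- `A`, `B` is a clique separation: no edge between `A \ B` and `B \ A`, and `A ∩ B` is a clique. -/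
structure Sep {V : Type} (H : SimpleGraph V) (A B : Set V) : Prop where
  un : A ∪ B = Set.univ
  no : ∀ a ∈ A, a ∉ B → ∀ b ∈ B, b ∉ A → ¬ H.Adj a b
  cl : ∀ a ∈ A ∩ B, ∀ b ∈ A ∩ B, a ≠ b → H.Adj a b

/-- `H` has no clique separator (so it is connected; for bipartite `H` with at least three vertices: it is `2`-connected and no edge separates it). -/
def Atom {V : Type} (H : SimpleGraph V) : Prop :=
  ∀ A B : Set V, Sep H A B → A = Set.univ ∨ B = Set.univ

/-! ## Part A: tools -/

/-- BAS (short). Basic facts. -/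
def BAS_stmt : Prop := ∀ (V : Type) (H : SimpleGraph V) (c : V → Bool),
  (∀ (n : ℕ) (S : Set V) (m : ℕ),
    exs n H c S ≤ m ↔ ∀ B : Finset (Fin n × Fin n), ¬ Cp H c S B → B.card ≤ m) ∧
  (∀ (S T : Set V), S ⊆ T → ∀ n, exs n H c S ≤ exs n H c T) ∧
  (∀ (n : ℕ) (S : Set V), exs n H c S ≤ n ^ 2)

/-- EMB (short). Compose the copy of `K` with `α`. Uses BAS. -/
def EMB_stmt : Prop := ∀ (V W : Type) (H : SimpleGraph V) (K : SimpleGraph W) (c : V → Bool)
  (d : W → Bool) (S : Set V) (T : Set W) (α : V → W), (∀ a ∈ S, α a ∈ T) → Set.InjOn α S →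
  (∀ a ∈ S, ∀ b ∈ S, H.Adj a b → K.Adj (α a) (α b)) → (∀ a ∈ S, d (α a) = c a) →
  ∀ n, exs n H c S ≤ exs n K d T

/-- FLP (short). Exchange rows and columns (`Finset.map` with the swap). Uses BAS. -/
def FLP_stmt : Prop := ∀ (V : Type) (H : SimpleGraph V) (c : V → Bool) (S : Set V) (n : ℕ),
  exs n H (fun a => !c a) S = exs n H c S

/-- RST (short). Restriction to a subset as a graph. Uses EMB, BAS. (If `S` is nonempty choose a map `V → S` which is the identity on `S`; if `S` is empty then
both sides are `0`, as there is a map `V → Fin n`.) -/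
def RST_stmt : Prop := ∀ (V : Type) (H : SimpleGraph V) (c : V → Bool) (S : Set V) (n : ℕ), 0 < n →
  exs n (H.induce S) (fun a => c a) Set.univ = exs n H c S

/-- CUT (medium). Uses BAS. PROOF. Let `G` on `Fin n` be without `H`. For `S : Finset (Fin n)` let `B_S = {(u, v) | u ∈ S, v ∉ S, G.Adj u v}`. An ordered copy `φ` of `H` in `B_S`
would be injective (no isolated vertices: rows are in `S`, columns are not) and give a copy of `H` in `G`. So `|B_S| ≤ exs`; and `∑_S |B_S| = 2 e(G) 2^(n-2)`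
(for `n ≥ 2`; every ordered pair of adjacent vertices is in `B_S` for `2^(n-2)` sets `S`), there are `2^n` sets. -/
def CUT_stmt : Prop := ∀ (V : Type) [Fintype V] (H : SimpleGraph V) (c : V → Bool), Pr H c →
  (∀ a, ∃ b, H.Adj a b) → ∀ n, ex n H ≤ 2 * exs n H c Set.univ

/-- HST (short). `Gr (fun u v => (u, v) ∈ B)` is a graph on `Fin n ⊕ Fin n` with `|B|` edges. -/
def HST_stmt : Prop := ∀ (n : ℕ) (B : Finset (Fin n × Fin n)) (W : Type) (K : SimpleGraph W),
  ex (2 * n) K < B.card → K ⊑ Gr (fun u v : Fin n => (u, v) ∈ B)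

/-- ORI (medium). PROOF. `φ : W → Fin n ⊕ Fin n`; along an edge of `K` both the colour `d` and the side of `φ` change; as `K` is connected, either the side of
`φ w` is left iff `d w = true` for all `w`, or iff `d w = false` for all `w`. -/
def ORI_stmt : Prop := ∀ (n : ℕ) (B : Finset (Fin n × Fin n)) (W : Type) (K : SimpleGraph W)
  (d : W → Bool), K.Connected → Pr K d → K ⊑ Gr (fun u v : Fin n => (u, v) ∈ B) →
  Cp K d Set.univ B ∨ Cp K (fun w => !d w) Set.univ B

/-- SYM (short). Uses BAS, HST, ORI. PROOF. Let `B` be without an ordered copy of `H` and `|B| > ex (2 n) K`. By HST, ORI there is a copy of `K` in `B`, with respect to `d` or to `!d`. Compose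
with `α`, resp. `β`. -/
def SYM_stmt : Prop := ∀ (V W : Type) (H : SimpleGraph V) (K : SimpleGraph W) (c : V → Bool)
  (d : W → Bool) (α β : V → W), K.Connected → Pr K d → Function.Injective α →
  Function.Injective β → (∀ a b, H.Adj a b → K.Adj (α a) (α b)) →
  (∀ a b, H.Adj a b → K.Adj (β a) (β b)) → (∀ a, d (α a) = c a) → (∀ a, d (β a) = !c a) →
  ∀ n, exs n H c Set.univ ≤ ex (2 * n) K

/-- SCL (short). `antitoneOn_extremalNumber_div_choose_two`; `(2n choose 2) / (n choose 2) = 2 (2n-1)/(n-1) ≤ 6`. -/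
def SCL_stmt : Prop := ∀ (W : Type) (K : SimpleGraph W) (n : ℕ), 2 ≤ n → ex (2 * n) K ≤ 6 * ex n K

/-- LIN (medium). PROOF. If two edges of `H` have a common vertex, then the graph on `Fin n` with the edges `{2i, 2i+1}` is without `H`, with `n/2 ≥ n/3` edges.
Otherwise `H` has two disjoint edges, and the star with `n - 1` edges is without `H`. -/
def LIN_stmt : Prop := ∀ (V : Type) (H : SimpleGraph V), (∃ e ∈ H.edgeSet, ∃ e' ∈ H.edgeSet, e ≠ e') →
  ∀ n, 2 ≤ n → n ≤ 3 * ex n H

/-- AVG (medium). PROOF. Sum over all pairs `(A, A')`: the element `e` of `B` is counted for `2^(n - 1 - |S e|) * 2^(n - 1 - |T e|) ≥ 2^(2n - 2 - k)` pairs; there are `2^(2n)` pairs. -/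
def AVG_stmt : Prop := ∀ (n k : ℕ) (B : Finset (Fin n × Fin n))
  (S T : Fin n × Fin n → Finset (Fin n)),
  (∀ e ∈ B, e.1 ∉ S e ∧ e.2 ∉ T e ∧ (S e).card + (T e).card ≤ k) →
  ∃ A A' : Finset (Fin n), B.card ≤ 2 ^ (k + 2) *
    (B.filter (fun e => e.1 ∈ A ∧ e.2 ∈ A' ∧ Disjoint (S e) A ∧ Disjoint (T e) A')).card

/-- SUM (LONG, helper55). The key lemma. Uses BAS, AVG. -/
def SUM_stmt : Prop := ∀ (V : Type) [Fintype V] (H : SimpleGraph V) (c : V → Bool), Pr H c →
  ∀ T A B : Set V, A ∪ B = T → (∀ a ∈ A, a ∉ B → ∀ b ∈ B, b ∉ A → ¬ H.Adj a b) →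
  (∀ a ∈ A, ∃ b ∈ A, H.Adj a b) → (∃ a ∈ A, ∃ b ∈ A, H.Adj a b ∧ A ∩ B ⊆ {a, b}) →
  (∃ a ∈ B, ∃ b ∈ B, H.Adj a b ∧ A ∩ B ⊆ {a, b}) → ∀ n,
  exs n H c T ≤ exs n H c B + 2 ^ (Fintype.card V + 2) * exs n H c A + Fintype.card V * n

/-! ## Part B: Theorem I -/

/-- FRO (medium). PROOF. From right to left: `V = X ⊕ Y`, `H = Gr R`, `c = Sum.isLeft`; an ordered copy in the sense of `Cp` gives `f`, `g`. From left to right: `X = {a // c a = true}`, `Y = {a // c a = false}`,
`R = H.Adj`, `Gr R ≃g H`. (`C : ℝ` versus `C : ℕ`: `Nat.ceil`.) -/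
def FRO_stmt : Prop := Q1 ↔
  ∀ (V : Type) [Fintype V] (H : SimpleGraph V) (c : V → Bool), Pr H c → QG H c

/-- JPR (short). Properties of the join. (`SimpleGraph.edge_adj`; the copy of `H`: `Sum.inl`.) -/
def JPR_stmt : Prop := ∀ (V W : Type) (H : SimpleGraph V) (K : SimpleGraph W) (v : V) (w : W),
  (∀ (c : V → Bool) (d : W → Bool), Pr H c → Pr K d → c v ≠ d w →
    Pr (Join H K v w) (Sum.elim c d)) ∧
  (H.Connected → K.Connected → (Join H K v w).Connected) ∧ H ⊑ Join H K v w ∧ K ⊑ Join H K v w ∧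
  (∀ a b, H.Adj a b → (Join H K v w).Adj (Sum.inl a) (Sum.inl b)) ∧
  (∀ a b, K.Adj a b → (Join H K v w).Adj (Sum.inr a) (Sum.inr b)) ∧
  (Join H K v w).Adj (Sum.inl v) (Sum.inr w) ∧
  (∀ a b, (Join H K v w).Adj (Sum.inl a) (Sum.inr b) → a = v ∧ b = w) ∧
  ∃ σ : Join H H v v ≃g Join H H v v, ∀ a, σ a = a.swap

/-- JBD (medium). Uses SUM, EMB, BAS, JPR. PROOF. `J = Join H K v w`, `A = range inl`, `B = range inr ∪ {inl v}`, `A ∩ B = {inl v}`; SUM: `exs J univ ≤ exs J B + C exs J A + C n`. `exs J A ≤ exs H univ`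
by EMB with `α (inl a) = a` (anything on `inr`). Again SUM with `T = B`, `A' = {inl v, inr w}`, `B' = range inr`: `exs J A' = 0` (every nonempty host contains an edge), `exs J B' ≤ exs K univ` (EMB). -/
def JBD_stmt : Prop := ∀ (V W : Type) [Fintype V] [Fintype W] (H : SimpleGraph V)
  (K : SimpleGraph W) (c : V → Bool) (d : W → Bool) (v : V) (w : W), Pr H c → Pr K d →
  (∀ a, ∃ b, H.Adj a b) → (∀ a, ∃ b, K.Adj a b) → c v ≠ d w →
  ∃ C : ℕ, ∀ n, exs n (Join H K v w) (Sum.elim c d) Set.univ ≤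
    C * (exs n H c Set.univ + exs n K d Set.univ + n)

/-- SML (short). Small `n`. Uses LIN. PROOF. `n ≤ 3 ex n H` for `n ≥ 2`. For `2 ≤ n < N`: `ex n K ≤ n^2 ≤ N n ≤ 3 N ex n H`; `ex n K = 0` for `n ≤ 1`. -/
def SML_stmt : Prop := ∀ (V W : Type) (H : SimpleGraph V) (K : SimpleGraph W) (C N : ℕ) (g : ℕ → ℕ),
  (∃ e ∈ H.edgeSet, ∃ e' ∈ H.edgeSet, e ≠ e') →
  (∀ n, N ≤ n → ex n K ≤ C * (g n + ex n H + n)) →
  ∃ C' : ℕ, ∀ n, ex n K ≤ C' * (g n + ex n H)

/-- CON (short). A connected graph with at least three vertices has no isolated vertex and two edges (with a common vertex); the proper colouring is unique up to exchange of the colours. -/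
def CON_stmt : Prop := ∀ (V : Type) [Fintype V] (H : SimpleGraph V), H.Connected →
  (3 ≤ Fintype.card V → (∀ a, ∃ b, H.Adj a b) ∧ ∃ e ∈ H.edgeSet, ∃ e' ∈ H.edgeSet, e ≠ e') ∧
  ∀ c c' : V → Bool, Pr H c → Pr H c' → c' = c ∨ c' = fun a => !c a

/-- LOC (medium, assembly). Uses CUT, JBD, JPR, FLP, SML, CON, SYM, SCL, LIN.
PROOF. (1)→(2): `ex n J ≤ 2 exs n J ≤ C (exs n H c + exs n H (!c) + n) = C (2 exs n H c + n) ≤ C' (ex n H + n)` for `n ≥ N`, then SML. (2)→(3): `H` is nonempty. (3)→(4): `K = Join H H v v`, `σ = swap`,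
`d = Sum.elim c (!c)`. (4)→(1): `H ⊑ K` by `α`, `d ∘ α = c` or `!c` (CON), `β = σ ∘ α` (or exchange them); SYM, SCL. -/
def LOC_stmt : Prop := ∀ (V : Type) [Fintype V] (H : SimpleGraph V) (c : V → Bool), H.Connected →
  Pr H c → 3 ≤ Fintype.card V →
  List.TFAE [QG H c, ∀ v, JB H v, ∃ v, JB H v, Sy H]

/-- SPR (medium). Good separations. PROOF. Let `A`, `B` be a clique separation with `A ≠ univ`, `B ≠ univ`. As `H` is bipartite, `A ∩ B` is empty, one vertex or two adjacent vertices. A vertex of `A \ B` has its neighbours in `A`.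
Two adjacent vertices: fine. Empty: fine (no isolated vertices). `A ∩ B = {v}`: if `v` has neighbours in `A` and in `B`, fine. If `v` has no neighbour in `A`, replace `A` by `A \ {v}`; if it has none in `B`, replace `B` by `B \ {v}`. -/
def SPR_stmt : Prop := ∀ (V : Type) [Fintype V] (H : SimpleGraph V) (c : V → Bool), Pr H c →
  (∀ a, ∃ b, H.Adj a b) → ¬ Atom H → ∃ A B : Set V, A ≠ Set.univ ∧ B ≠ Set.univ ∧
  A ∪ B = Set.univ ∧ (∀ a ∈ A, a ∉ B → ∀ b ∈ B, b ∉ A → ¬ H.Adj a b) ∧
  (∀ a ∈ A, ∃ b ∈ A, H.Adj a b) ∧ (∃ a ∈ A, ∃ b ∈ A, H.Adj a b ∧ A ∩ B ⊆ {a, b}) ∧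
  (∃ a ∈ B, ∃ b ∈ B, H.Adj a b ∧ A ∩ B ⊆ {a, b})

/-- QSM (medium). The property `QG` for a good separation. Uses SUM, RST, LIN. PROOF. `exs n H univ ≤ exs n H B + C exs n H A + C n`; RST; `ex n (H.induce A) ≤ ex n H`
(`IsContained.extremalNumber_le`); `H` has two edges: the one in `A` and, for `b ∉ A`, an edge at `b` (`b ∈ B`, if `b` is isolated use `hiso`); so `n ≤ 3 ex n H` by LIN. -/
def QSM_stmt : Prop := ∀ (V : Type) [Fintype V] (H : SimpleGraph V) (c : V → Bool), Pr H c →
  (∀ a, ∃ b, H.Adj a b) → ∀ A B : Set V, A ≠ Set.univ → A ∪ B = Set.univ →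
  (∀ a ∈ A, a ∉ B → ∀ b ∈ B, b ∉ A → ¬ H.Adj a b) →
  (∀ a ∈ A, ∃ b ∈ A, H.Adj a b) → (∃ a ∈ A, ∃ b ∈ A, H.Adj a b ∧ A ∩ B ⊆ {a, b}) →
  (∃ a ∈ B, ∃ b ∈ B, H.Adj a b ∧ A ∩ B ⊆ {a, b}) →
  QG (H.induce A) (fun a => c a) → QG (H.induce B) (fun a => c a) → QG H c

/-- ISO (short). Isolated vertices do not matter. Uses BAS, RST. PROOF. `S = univ \ {v}`: for `n ≥ |V|` an ordered copy of `H` on `S` extends to `v`: `exs n H univ ≤ exs n H S`. -/
def ISO_stmt : Prop := ∀ (V : Type) [Fintype V] (H : SimpleGraph V) (c : V → Bool) (v : V),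
  (∀ b, ¬ H.Adj v b) → QG (H.induce {v}ᶜ) (fun a => c a) → QG H c

/-- ATM (medium). Induction on the number of vertices. Uses SPR, QSM, ISO. (The induction hypothesis is applied to the subtypes; if `¬ Atom H` and `v` is isolated: ISO; otherwise SPR, QSM.) -/
def ATM_stmt : Prop := ∀ m : ℕ,
  (∀ (V : Type) [Fintype V] (H : SimpleGraph V) (c : V → Bool), Pr H c →
    Nat.card {a : V // c a = true} ≤ m → Atom H → QG H c) →
  ∀ (V : Type) [Fintype V] (H : SimpleGraph V) (c : V → Bool), Pr H c →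
    Nat.card {a : V // c a = true} ≤ m → QG H c

/-- TRV (short). Graphs with at most two vertices (or at most one edge): `exs n H univ = 0` for `n ≥ |V|`, because every nonempty `B` contains a copy (and the empty `B` if there is no edge). -/
def TRV_stmt : Prop := ∀ (V : Type) [Fintype V] (H : SimpleGraph V) (c : V → Bool), Pr H c →
  (∀ e ∈ H.edgeSet, ∀ e' ∈ H.edgeSet, e = e') → QG H c

/-- ACN (short). Atoms are connected. PROOF. If `A` is a connected component (`ConnectedComponent.supp`) and `B` its complement, then `A = univ` or `B = univ`. -/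
def ACN_stmt : Prop := ∀ (V : Type) (H : SimpleGraph V), Nonempty V → Atom H → H.Connected

/-- GLO (medium, assembly). Uses FRO, ATM, ACN, TRV, LOC, CUT, JBD, SML (with `g n = ex n K`), CON, JPR.
PROOF. From left to right: `ex n J ≤ 2 exs n J ≤ C (exs n H + exs n K + n)` for suitable colourings (`c v ≠ d w`: exchange the colours of `K` if necessary), `≤ C' (ex n H + ex n K)` for large `n` and by
`n ≤ 3 ex n H` for all `n`. From right to left: with `K = H`, `w = v` the property `JB H v`, so `QG H c` for all connected `H` with at least three vertices (LOC); ATM, ACN, TRV. -/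
def GLO_stmt : Prop := Q1 ↔
  ∀ (V W : Type) [Fintype V] [Fintype W] (H : SimpleGraph V) (K : SimpleGraph W),
    H.Connected → K.Connected → H.IsBipartite → K.IsBipartite → 3 ≤ Fintype.card V →
    3 ≤ Fintype.card W → ∀ (v : V) (w : W),
    ∃ C : ℕ, ∀ n, ex n (Join H K v w) ≤ C * (ex n H + ex n K)

/-! ## Part C: Theorem II -/

/-- CLS (medium). Closure under clique sums, for connected graphs. Uses QSM, EMB. PROOF. If `A = univ` or `B = univ` use `H ≃g H.induce univ`. Otherwise `A ∩ B` is not empty (connected), and every vertex of it has neighbours in `A` and in `B`: for two adjacent vertices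
clear; if `A ∩ B = {v}`, take a path from a vertex of `A \ B` to `v`. -/
def CLS_stmt : Prop := ∀ (V : Type) [Fintype V] (H : SimpleGraph V) (c : V → Bool), Pr H c →
  H.Connected → ∀ A B : Set V, Sep H A B →
  QG (H.induce A) (fun a => c a) → QG (H.induce B) (fun a => c a) → QG H c

/-- UP1 (medium). The theorem of Kovari, Sos and Turan for three rows. PROOF. Let `s = |V|`. If `B` contains `3` rows with `s` common columns, it contains `H`. Otherwise count pairs (triple of rows, common column): `∑_v C(d_v, 3) ≤ s C(n, 3)`, so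
`∑ d_v^3 ≤ C n^3` (as `d^3 ≤ 27 C(d, 3) + 27`), and by the power mean inequality `|B|^3 ≤ n^2 ∑ d_v^3 ≤ C n^5`. -/
def UP1_stmt : Prop := ∀ (V : Type) [Fintype V] (H : SimpleGraph V) (c : V → Bool), Pr H c →
  Nat.card {a : V // c a = true} ≤ 3 → ∃ C : ℕ, ∀ n, exs n H c Set.univ ^ 3 ≤ C * n ^ 5

/-- UP2 (LONG). PROOF. Let `m = 3 |V| + 2`. It is enough to find three rows with two common columns such that any two of them have at least `m` common columns: then choose the images of the columns with three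
neighbours (at most two) among the columns common to all three rows, and the images of the others greedily (a column with at most two neighbours is mapped to a common column of a pair of rows containing its neighbours).
Suppose there are no such rows in `B` and `|B| ≥ 2 n`. Call a pair of rows bad if it has fewer than `m` common columns. For columns `y ≠ y'` let `D(y, y')` be the number of common rows. `Σ = ∑_{y ≠ y'} D = ∑_u d_u (d_u - 1) ≥ |B|^2/n - |B| ≥
|B|^2/(2n)`. Among the common rows of `y`, `y'` there are no three which are pairwise not bad; by Mantel (at most `D^2/4` pairs are not bad) at least `D^2/2 - D` of the ordered pairs of distinct common rows are bad. So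
`∑_{y ≠ y'} (D^2/2 - D) ≤ ∑_{bad (x, x')} codeg^2 ≤ m^2 n^2`, and `Σ^2/n^2 ≤ ∑ D^2 ≤ 2 m^2 n^2 + 2 Σ`, so `Σ ≤ (2 m + 4) n^2` and `|B|^2 ≤ (4 m + 8) n^3`. -/
def UP2_stmt : Prop := ∀ (V : Type) [Fintype V] (H : SimpleGraph V) (c : V → Bool), Pr H c →
  Nat.card {a : V // c a = true} ≤ 3 →
  Nat.card {b : V // c b = false ∧ 3 ≤ Nat.card {a // H.Adj a b}} ≤ 2 →
  ∃ C : ℕ, ∀ n, exs n H c Set.univ ^ 2 ≤ C * n ^ 3

/-- LC4 (medium). Incidence graphs of affine planes: for a prime `p`, rows `(m, k)`, columns `(x, y)`, `y = m x + k` in `ZMod p`: `p^3` edges, no `K_{2,2}`. For `n` take a prime `p` with `2 p^2 ≤ n < 8 p^2 + ..` (`Nat.exists_prime_lt_and_le_two_mul`) and add isolated vertices. -/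
def LC4_stmt : Prop := ∃ C : ℕ, ∀ n, 2 ≤ n →
  n ^ 3 ≤ C * ex n (completeBipartiteGraph (Fin 2) (Fin 2)) ^ 2

/-- NRM (LONG). The norm graph (Kollar, Ronyai, Szabo; Alon, Ronyai, Szabo). PROOF. Let `F` be a field with `p^2` elements, rows and columns the pairs `(a, α)`, `a ∈ F`, `α ∈ F_p^*`; `(a, α)` and `(b, β)` are adjacent iff `(a + b)^(p+1) = α β`. Every row has `p^2 - 1` neighbours.
No three rows have three common neighbours: `a₁, a₂, a₃` are distinct; with `z = 1/(b + a₃)`, `s_i = 1/(a_i - a₃)`: `(z + s_i)(z^p + s_i^p) = γ_i` for `i = 1, 2`; the difference of the two equations gives `z^p` as `-t z + const`, `t = (s₁ - s₂)^(p-1) ≠ 0`; insert in the first: a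
quadratic equation for `z` with the leading coefficient `-t`. -/
def NRM_stmt : Prop := ∀ p : ℕ, p.Prime → ∃ (X Y : Type) (_ : Fintype X) (_ : Fintype Y)
  (R : X → Y → Prop), Fintype.card X = p ^ 2 * (p - 1) ∧ Fintype.card Y = p ^ 2 * (p - 1) ∧
  (∀ x, Nat.card {y // R x y} = p ^ 2 - 1) ∧
  ¬ ∃ (f : Fin 3 → X) (g : Fin 3 → Y), Function.Injective f ∧ Function.Injective g ∧
    ∀ i j, R (f i) (g j)

/-- LK3 (medium). Uses NRM. `K_{3,3}` is not contained in `Gr R` (it is connected; its classes are rows and columns); for `n` take a prime `p` with `2 p^3 ≤ n ≤ C p^3` and add isolated vertices; for small `n` use `ex n ≥ 1`. -/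
def LK3_stmt : Prop := ∃ C : ℕ, ∀ n, 2 ≤ n →
  n ^ 5 ≤ C * ex n (completeBipartiteGraph (Fin 3) (Fin 3)) ^ 3

/-- DG2 (short). In an atom with at least three vertices every vertex has at least two neighbours. PROOF. Otherwise `A = {v} ∪ N(v)`, `B = univ \ {v}`. -/
def DG2_stmt : Prop := ∀ (V : Type) [Fintype V] (H : SimpleGraph V), Atom H → 3 ≤ Fintype.card V →
  ∀ v, ∃ a b, a ≠ b ∧ H.Adj v a ∧ H.Adj v b

/-- CL3 (medium). Classification. PROOF. Every `b` of colour `false` has `2` or `3` neighbours (DG2), all of colour `true`. If three of them have three neighbours: `K_{3,3}`. Otherwise: if two of them have two common neighbours: `K_{2,2}`. Otherwise no `b` has three neighbours (another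
`b'` would have two common neighbours with it; if there is no other one, the rows have degree `1`), and there are three vertices of colour `true`, and the pairs of neighbours are distinct; every row has degree at least two, so all three pairs occur: `H` is the cycle with `6` vertices, which has the
rotation by one as an automorphism exchanging the colours. -/
def CL3_stmt : Prop := ∀ (V : Type) [Fintype V] (H : SimpleGraph V) (c : V → Bool), Pr H c →
  Atom H → 3 ≤ Fintype.card V → Nat.card {a : V // c a = true} ≤ 3 →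
  (completeBipartiteGraph (Fin 3) (Fin 3)) ⊑ H ∨
  (Nat.card {b : V // c b = false ∧ 3 ≤ Nat.card {a // H.Adj a b}} ≤ 2 ∧
    ((completeBipartiteGraph (Fin 2) (Fin 2)) ⊑ H ∨ ∃ σ : H ≃g H, ∀ a, c (σ a) = !c a))

/-- SC3 (medium, assembly). Uses CL3, UP1, UP2, LC4, LK3, SYM, SCL, ACN, TRV. (At most two vertices: TRV. `K_{3,3} ⊑ H`: UP1, LK3 and `ex n K_{3,3} ≤ ex n H`. `K_{2,2} ⊑ H`: UP2, LC4. If `H` has a class exchanging automorphism: SYM with `K = H`, `α = id`, `β = σ`; SCL.) -/
def SC3_stmt : Prop := ∀ (V : Type) [Fintype V] (H : SimpleGraph V) (c : V → Bool), Pr H c →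
  Atom H → Nat.card {a : V // c a = true} ≤ 3 → QG H c

/-- FIN (short, helper55): Theorem II. Uses FRO, ATM, SC3, FLP, CLS. -/
def FIN_stmt : Prop :=
  (∀ (V : Type) [Fintype V] (H : SimpleGraph V) (c : V → Bool), Pr H c →
    (Nat.card {a : V // c a = true} ≤ 3 ∨ Nat.card {a : V // c a = false} ≤ 3) → QG H c) ∧
  (∀ (V : Type) [Fintype V] (H : SimpleGraph V) (c : V → Bool), Pr H c → H.Connected →
    ∀ A B : Set V, Sep H A B →
    QG (H.induce A) (fun a => c a) → QG (H.induce B) (fun a => c a) → QG H c) ∧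
  (Q1 ↔ ∀ (V : Type) [Fintype V] (H : SimpleGraph V) (c : V → Bool), Pr H c → Atom H →
    4 ≤ Nat.card {a : V // c a = true} → 4 ≤ Nat.card {a : V // c a = false} → QG H c)

end Pool.Agent.GL
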