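import Pool.Agent.helper55.GL.Spec

/-!
# Project gl (MP_51d945_co), module FIN: Theorem II
-/

set_option autoImplicit false

namespace Pool.Agent.GL

open SimpleGraph

theorem FIN (hFRO : FRO_stmt) (hATM : ATM_stmt) (hSC3 : SC3_stmt) (hFLP : FLP_stmt)
    (hCLS : CLS_stmt) : FIN_stmt := by
  have h3 : ∀ (V : Type) [Fintype V] (H : SimpleGraph V) (c : V → Bool), Pr H c →
      Nat.card {a : V // c a = true} ≤ 3 → QG H c :=
    hATM 3 (fun V _ H c hP h hA => hSC3 V H c hP hA h)
  have h1 : ∀ (V : Type) [Fintype V] (H : SimpleGraph V) (c : V → Bool), Pr H c →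
      (Nat.card {a : V // c a = true} ≤ 3 ∨ Nat.card {a : V // c a = false} ≤ 3) → QG H c := by
    intro V _ H c hP h
    rcases h with h | h
    · exact h3 V H c hP h
    · have hP' : Pr H (fun a => !c a) := by
        intro a b hab h
        exact hP a b hab (by simpa using h)
      have hcard : Nat.card {a : V // (!c a) = true} = Nat.card {a : V // c a = false} :=
        Nat.card_congr (Equiv.subtypeEquivRight (fun a => by simp))
      obtain ⟨C, N, hC⟩ := h3 V H (fun a => !c a) hP' (hcard ▸ h)
      refine ⟨C, N, fun n hn => ?_⟩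
      rw [← hFLP V H c Set.univ n]
      exact hC n hn
  refine ⟨h1, hCLS, fun h V _ H c hP _ _ _ => hFRO.1 h V H c hP, fun h => hFRO.2 ?_⟩
  intro V _ H c hP
  refine hATM (Nat.card {a : V // c a = true}) ?_ V H c hP le_rfl
  intro V' _ H' c' hP' _ hA'
  by_cases h4 : Nat.card {a : V' // c' a = true} ≤ 3 ∨ Nat.card {a : V' // c' a = false} ≤ 3
  · exact h1 V' H' c' hP' h4
  · push Not at h4
    exact h V' H' c' hP' hA' h4.1 h4.2

end Pool.Agent.GL
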