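import Pool.Agent.helper55.GL.Spec

/-!
# Project gl (MP_51d945_co), module SUM: the key lemma
-/

set_option autoImplicit false

namespace Pool.Agent.GL

open SimpleGraph

section

variable {V : Type} [Fintype V] (H : SimpleGraph V) (c : V → Bool)

/-- `ψ` is an ordered copy of the part on `S`, rooted at `e` with respect to `K` -/
def SUM_Rt (S K : Set V) {n : ℕ} (𝔅 : Finset (Fin n × Fin n)) (e : Fin n × Fin n)
    (ψ : V → Fin n) : Prop :=
  ((∀ a ∈ S, ∀ b ∈ S, c a = c b → ψ a = ψ b → a = b) ∧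
    ∀ a ∈ S, ∀ b ∈ S, H.Adj a b → c a = true → c b = false → (ψ a, ψ b) ∈ 𝔅) ∧
  (∀ a ∈ K, c a = true → ψ a = e.1) ∧ ∀ a ∈ K, c a = false → ψ a = e.2

/-- the number of elements `e` with `e.1` in a set of size at most `t` which depends on `e.2` only -/
theorem SUM_cnt1 {n t : ℕ} (𝔅 : Finset (Fin n × Fin n)) (S : Fin n → Finset (Fin n))
    (hS : ∀ v, (S v).card ≤ t) :
    (𝔅.filter (fun e => e.1 ∈ S e.2)).card ≤ t * n := by
  have h1 : 𝔅.filter (fun e => e.1 ∈ S e.2) ⊆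
      (Finset.univ : Finset (Fin n)).biUnion (fun v => (S v).image (fun u => (u, v))) := by
    intro e he
    rw [Finset.mem_filter] at he
    rw [Finset.mem_biUnion]
    exact ⟨e.2, Finset.mem_univ _, Finset.mem_image.2 ⟨e.1, he.2, rfl⟩⟩
  calc (𝔅.filter (fun e => e.1 ∈ S e.2)).card ≤ _ := Finset.card_le_card h1
    _ ≤ ∑ v : Fin n, ((S v).image (fun u => (u, v))).card := Finset.card_biUnion_le
    _ ≤ ∑ _v : Fin n, t := Finset.sum_le_sum (fun v _ => Finset.card_image_le.trans (hS v))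
    _ = t * n := by simp [mul_comm]

theorem SUM_cnt2 {n t : ℕ} (𝔅 : Finset (Fin n × Fin n)) (T : Fin n → Finset (Fin n))
    (hT : ∀ v, (T v).card ≤ t) :
    (𝔅.filter (fun e => e.2 ∈ T e.1)).card ≤ t * n := by
  have h1 : 𝔅.filter (fun e => e.2 ∈ T e.1) ⊆
      (Finset.univ : Finset (Fin n)).biUnion (fun u => (T u).image (fun v => (u, v))) := by
    intro e he
    rw [Finset.mem_filter] at he
    rw [Finset.mem_biUnion]
    exact ⟨e.1, Finset.mem_univ _, Finset.mem_image.2 ⟨e.2, he.2, rfl⟩⟩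
  calc (𝔅.filter (fun e => e.2 ∈ T e.1)).card ≤ _ := Finset.card_le_card h1
    _ ≤ ∑ u : Fin n, ((T u).image (fun v => (u, v))).card := Finset.card_biUnion_le
    _ ≤ ∑ _v : Fin n, t := Finset.sum_le_sum (fun v _ => Finset.card_image_le.trans (hT v))
    _ = t * n := by simp [mul_comm]

end

/-- choice of the rooted copies, depending on the root only -/
theorem SUM_choice {V : Type} [Fintype V] (H : SimpleGraph V) (c : V → Bool) (B K : Set V)
    (hKB : K ⊆ B) {n : ℕ} (hn : 0 < n) (𝔅 𝔅1 : Finset (Fin n × Fin n)) (XB YB : Finset V)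
    (hXB : ∀ a ∈ XB, a ∈ B ∧ a ∉ K ∧ c a = true) (hYB : ∀ a ∈ YB, a ∈ B ∧ a ∉ K ∧ c a = false)
    (h1 : ∀ e ∈ 𝔅1, ∃ ψ, SUM_Rt H c B K 𝔅 e ψ) :
    ∃ Ψ : Fin n × Fin n → V → Fin n, (∀ e ∈ 𝔅1, SUM_Rt H c B K 𝔅 e (Ψ e)) ∧
      (𝔅1.filter (fun e => e.1 ∈ XB.image (Ψ e))).card ≤ XB.card * n ∧
      (𝔅1.filter (fun e => e.2 ∈ YB.image (Ψ e))).card ≤ YB.card * n := by
  classical
  obtain ⟨i0⟩ : Nonempty (Fin n) := ⟨⟨0, hn⟩⟩
  obtain ⟨r, hr1, hr2, hr3, hr4⟩ : ∃ r : Fin n × Fin n → Fin n × Fin n,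
      ((∃ a ∈ K, c a = true) → ∀ e, (r e).1 = e.1) ∧
      ((∃ a ∈ K, c a = false) → ∀ e, (r e).2 = e.2) ∧
      ((¬ ∃ a ∈ K, c a = true) → ∀ e, r e = r (i0, e.2)) ∧
      ((¬ ∃ a ∈ K, c a = false) → ∀ e, r e = r (e.1, i0)) := by
    refine ⟨fun e => (if ∃ a ∈ K, c a = true then e.1 else i0,
      if ∃ a ∈ K, c a = false then e.2 else i0), ?_, ?_, ?_, ?_⟩
    · intro h e
      exact if_pos h
    · intro h e
      exact if_pos h
    · intro h e
      simp only [if_neg h]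
    · intro h e
      simp only [if_neg h]
  have hr : ∀ e ψ, SUM_Rt H c B K 𝔅 e ψ ↔ SUM_Rt H c B K 𝔅 (r e) ψ := by
    intro e ψ
    unfold SUM_Rt
    refine and_congr_right (fun _ => and_congr ?_ ?_)
    · constructor
      · intro h a ha hca
        rw [hr1 ⟨a, ha, hca⟩ e, h a ha hca]
      · intro h a ha hca
        rw [h a ha hca, hr1 ⟨a, ha, hca⟩ e]
    · constructor
      · intro h a ha hca
        rw [hr2 ⟨a, ha, hca⟩ e, h a ha hca]
      · intro h a ha hca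
        rw [h a ha hca, hr2 ⟨a, ha, hca⟩ e]
  obtain ⟨Ψ, hΨ⟩ : ∃ Ψ : Fin n × Fin n → V → Fin n,
      ∀ e, (∃ ψ, SUM_Rt H c B K 𝔅 e ψ) → SUM_Rt H c B K 𝔅 e (Ψ e) := by
    refine ⟨fun e => if h : ∃ ψ, SUM_Rt H c B K 𝔅 e ψ then h.choose else fun _ => i0, ?_⟩
    intro e h
    simp only [dif_pos h]
    exact h.choose_spec
  have hΨ1 : ∀ e ∈ 𝔅1, SUM_Rt H c B K 𝔅 e (Ψ (r e)) := by
    intro e he
    obtain ⟨ψ, hψ⟩ := h1 e he
    rw [hr]
    exact hΨ _ ⟨ψ, (hr e ψ).1 hψ⟩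
  refine ⟨fun e => Ψ (r e), hΨ1, ?_, ?_⟩
  · by_cases hx : ∃ a ∈ K, c a = true
    · obtain ⟨a, ha, hca⟩ := hx
      have h0 : 𝔅1.filter (fun e => e.1 ∈ XB.image (Ψ (r e))) = ∅ := by
        rw [Finset.filter_eq_empty_iff]
        intro e he hmem
        obtain ⟨b, hb, hbe⟩ := Finset.mem_image.1 hmem
        obtain ⟨hbB, hbK, hcb⟩ := hXB b hb
        obtain ⟨⟨hinj, -⟩, hrt, -⟩ := hΨ1 e he
        have h3 : Ψ (r e) a = Ψ (r e) b := by rw [hrt a ha hca, hbe]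
        have h4 := hinj a (hKB ha) b hbB (by rw [hca, hcb]) h3
        rw [h4] at ha
        exact hbK ha
      rw [h0]
      simp
    · have h5 := hr3 hx
      have h6 : 𝔅1.filter (fun e => e.1 ∈ XB.image (Ψ (r e))) =
          𝔅1.filter (fun e => e.1 ∈ (fun v => XB.image (Ψ (r (i0, v)))) e.2) := by
        refine Finset.filter_congr (fun e _ => ?_)
        change _ ↔ e.1 ∈ XB.image (Ψ (r (i0, e.2)))
        rw [← h5 e]
      rw [h6]
      exact SUM_cnt1 𝔅1 (fun v => XB.image (Ψ (r (i0, v)))) (fun v => Finset.card_image_le)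
  · by_cases hx : ∃ a ∈ K, c a = false
    · obtain ⟨a, ha, hca⟩ := hx
      have h0 : 𝔅1.filter (fun e => e.2 ∈ YB.image (Ψ (r e))) = ∅ := by
        rw [Finset.filter_eq_empty_iff]
        intro e he hmem
        obtain ⟨b, hb, hbe⟩ := Finset.mem_image.1 hmem
        obtain ⟨hbB, hbK, hcb⟩ := hYB b hb
        obtain ⟨⟨hinj, -⟩, -, hrt⟩ := hΨ1 e he
        have h3 : Ψ (r e) a = Ψ (r e) b := by rw [hrt a ha hca, hbe]
        have h4 := hinj a (hKB ha) b hbB (by rw [hca, hcb]) h3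
        rw [h4] at ha
        exact hbK ha
      rw [h0]
      simp
    · have h5 := hr4 hx
      have h6 : 𝔅1.filter (fun e => e.2 ∈ YB.image (Ψ (r e))) =
          𝔅1.filter (fun e => e.2 ∈ (fun u => YB.image (Ψ (r (u, i0)))) e.1) := by
        refine Finset.filter_congr (fun e _ => ?_)
        change _ ↔ e.2 ∈ YB.image (Ψ (r (e.1, i0)))
        rw [← h5 e]
      rw [h6]
      exact SUM_cnt2 𝔅1 (fun u => YB.image (Ψ (r (u, i0)))) (fun v => Finset.card_image_le)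

/-- the other colour -/
theorem SUM_col {V : Type} {H : SimpleGraph V} {c : V → Bool} (hP : Pr H c) {a b : V}
    (hab : H.Adj a b) : (c a = true → c b = false) ∧ (c a = false → c b = true) := by
  have := hP a b hab
  cases hca : c a <;> cases hcb : c b <;> simp_all

/-- the combination of the copies -/
theorem SUM_comb {V : Type} (H : SimpleGraph V) (c : V → Bool) (hP : Pr H c) (T A B : Set V)
    (hT : A ∪ B = T) (hno : ∀ a ∈ A, a ∉ B → ∀ b ∈ B, b ∉ A → ¬ H.Adj a b)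
    (hA : ∀ a ∈ A, ∃ b ∈ A, H.Adj a b) {n : ℕ} (𝔅 : Finset (Fin n × Fin n)) (φ ψ : V → Fin n)
    (R R' S T' : Finset (Fin n)) (hdS : Disjoint S R) (hdT : Disjoint T' R')
    (hinj : ∀ a ∈ A, ∀ b ∈ A, c a = c b → φ a = φ b → a = b)
    (hed : ∀ a ∈ A, ∀ b ∈ A, H.Adj a b → c a = true → c b = false →
      (φ a, φ b) ∈ 𝔅 ∧ φ a ∈ R ∧ φ b ∈ R')
    (hψi : ∀ a ∈ B, ∀ b ∈ B, c a = c b → ψ a = ψ b → a = b)
    (hψe : ∀ a ∈ B, ∀ b ∈ B, H.Adj a b → c a = true → c b = false → (ψ a, ψ b) ∈ 𝔅)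
    (hag : ∀ a ∈ A ∩ B, ψ a = φ a)
    (hψS : ∀ a ∈ B, a ∉ A ∩ B → c a = true → ψ a ∈ S)
    (hψT : ∀ a ∈ B, a ∉ A ∩ B → c a = false → ψ a ∈ T') : Cp H c T 𝔅 := by
  classical
  -- images of `A` are in `R`, `R'`
  have hφR : ∀ a ∈ A, c a = true → φ a ∈ R := by
    intro a ha hca
    obtain ⟨b, hb, hab⟩ := hA a ha
    exact (hed a ha b hb hab hca ((SUM_col hP hab).1 hca)).2.1
  have hφR' : ∀ a ∈ A, c a = false → φ a ∈ R' := by
    intro a ha hca
    obtain ⟨b, hb, hab⟩ := hA a ha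
    exact (hed b hb a ha hab.symm ((SUM_col hP hab).2 hca) hca).2.2
  have hTB : ∀ a ∈ T, a ∉ A → a ∈ B := by
    intro a ha haA
    rw [← hT] at ha
    exact ha.resolve_left haA
  have hcross : ∀ a ∈ A, ∀ b ∈ T, b ∉ A → c a = c b → φ a ≠ ψ b := by
    intro a ha b hb hbA hcab heq
    have hbB := hTB b hb hbA
    have hbK : b ∉ A ∩ B := fun h => hbA h.1
    by_cases haK : a ∈ A ∩ B
    · have h3 := hψi a haK.2 b hbB hcab ((hag a haK).trans heq)
      exact hbA (h3 ▸ ha)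
    · cases hca : c a with
      | true =>
        have h3 := hψS b hbB hbK (by rw [← hcab, hca])
        rw [← heq] at h3
        exact (Finset.disjoint_left.1 hdS h3) (hφR a ha hca)
      | false =>
        have h3 := hψT b hbB hbK (by rw [← hcab, hca])
        rw [← heq] at h3
        exact (Finset.disjoint_left.1 hdT h3) (hφR' a ha hca)
  refine ⟨fun a => if a ∈ A then φ a else ψ a, ?_, ?_⟩
  · intro a ha b hb hcab heq
    by_cases haA : a ∈ A <;> by_cases hbA : b ∈ A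
    · simp only [if_pos haA, if_pos hbA] at heq
      exact hinj a haA b hbA hcab heq
    · simp only [if_pos haA, if_neg hbA] at heq
      exact absurd heq (hcross a haA b hb hbA hcab)
    · simp only [if_neg haA, if_pos hbA] at heq
      exact absurd heq.symm (hcross b hbA a ha haA hcab.symm)
    · simp only [if_neg haA, if_neg hbA] at heq
      exact hψi a (hTB a ha haA) b (hTB b hb hbA) hcab heq
  · intro a ha b hb hab hca hcb
    by_cases haA : a ∈ A <;> by_cases hbA : b ∈ A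
    · simp only [if_pos haA, if_pos hbA]
      exact (hed a haA b hbA hab hca hcb).1
    · simp only [if_pos haA, if_neg hbA]
      have hbB := hTB b hb hbA
      by_cases haB : a ∈ B
      · rw [← hag a ⟨haA, haB⟩]
        exact hψe a haB b hbB hab hca hcb
      · exact absurd hab (hno a haA haB b hbB hbA)
    · simp only [if_neg haA, if_pos hbA]
      have haB := hTB a ha haA
      by_cases hbB : b ∈ B
      · rw [← hag b ⟨hbA, hbB⟩]
        exact hψe a haB b hbB hab hca hcb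
      · exact absurd hab.symm (hno b hbA hbB a haB haA)
    · simp only [if_neg haA, if_neg hbA]
      exact hψe a (hTB a ha haA) b (hTB b hb hbA) hab hca hcb

/-- an edge with ordered colours -/
theorem SUM_ord {V : Type} {H : SimpleGraph V} {c : V → Bool} (hP : Pr H c) (K S : Set V)
    (h : ∃ a ∈ S, ∃ b ∈ S, H.Adj a b ∧ K ⊆ {a, b}) :
    ∃ a ∈ S, ∃ b ∈ S, H.Adj a b ∧ c a = true ∧ c b = false ∧
      (∀ x ∈ K, c x = true → x = a) ∧ (∀ x ∈ K, c x = false → x = b) := by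
  have key : ∀ a ∈ S, ∀ b ∈ S, H.Adj a b → c a = true → K ⊆ {a, b} →
      ∃ a ∈ S, ∃ b ∈ S, H.Adj a b ∧ c a = true ∧ c b = false ∧
      (∀ x ∈ K, c x = true → x = a) ∧ (∀ x ∈ K, c x = false → x = b) := by
    intro a ha b hb hab hca hsub
    have hcb := (SUM_col hP hab).1 hca
    refine ⟨a, ha, b, hb, hab, hca, hcb, fun x hx hcx => ?_, fun x hx hcx => ?_⟩
    · rcases hsub hx with h | h
      · exact h
      · rw [Set.mem_singleton_iff] at h
        rw [h, hcb] at hcx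
        exact absurd hcx (by decide)
    · rcases hsub hx with h | h
      · rw [h, hca] at hcx
        exact absurd hcx (by decide)
      · exact h
  obtain ⟨a, ha, b, hb, hab, hsub⟩ := h
  cases hca : c a with
  | true => exact key a ha b hb hab hca hsub
  | false =>
    refine key b hb a ha hab.symm ((SUM_col hP hab).2 hca) ?_
    rwa [Set.pair_comm]

theorem SUM (hBAS : BAS_stmt) (hAVG : AVG_stmt) : SUM_stmt := by
  classical
  intro V _ H c hP T A B hT hno hA hAe hBe n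
  obtain ⟨hle, -, -⟩ := hBAS V H c
  rw [hle]
  intro 𝔅 h𝔅
  obtain ⟨a0, ha0, b0, hb0, hab0, hca0, hcb0, hKa0, hKb0⟩ := SUM_ord hP (A ∩ B) A hAe
  obtain ⟨a1, ha1, b1, hb1, hab1, hca1, hcb1, hKa1, hKb1⟩ := SUM_ord hP (A ∩ B) B hBe
  obtain ⟨𝔅2, h𝔅2⟩ : ∃ 𝔅2, 𝔅2 = 𝔅.filter (fun e => ¬ ∃ ψ, SUM_Rt H c B (A ∩ B) 𝔅 e ψ) := ⟨_, rfl⟩
  obtain ⟨𝔅1, h𝔅1⟩ : ∃ 𝔅1, 𝔅1 = 𝔅.filter (fun e => ∃ ψ, SUM_Rt H c B (A ∩ B) 𝔅 e ψ) := ⟨_, rfl⟩
  have hsum : 𝔅.card = 𝔅2.card + 𝔅1.card := by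
    rw [h𝔅1, h𝔅2, add_comm, Finset.card_filter_add_card_filter_not]
  have h2 : 𝔅2.card ≤ exs n H c B := by
    refine (hle n B (exs n H c B)).1 le_rfl 𝔅2 ?_
    rintro ⟨ψ, hinj, hed⟩
    have he := hed a1 ha1 b1 hb1 hab1 hca1 hcb1
    rw [h𝔅2, Finset.mem_filter] at he
    apply he.2
    refine ⟨ψ, ⟨hinj, fun a ha b hb hab hca hcb => ?_⟩, fun a ha hca => ?_, fun a ha hca => ?_⟩
    · have := hed a ha b hb hab hca hcb
      rw [h𝔅2] at this
      exact (Finset.mem_filter.1 this).1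
    · rw [hKa1 a ha hca]
    · rw [hKb1 a ha hca]
  rcases Nat.eq_zero_or_pos n with hn | hn
  · subst hn
    have : 𝔅.card = 0 := by
      rw [Finset.card_eq_zero, Finset.eq_empty_iff_forall_notMem]
      exact fun e => e.1.elim0
    omega
  obtain ⟨XB, hXB⟩ : ∃ XB : Finset V,
      XB = Finset.univ.filter (fun a => a ∈ B ∧ a ∉ A ∩ B ∧ c a = true) := ⟨_, rfl⟩
  obtain ⟨YB, hYB⟩ : ∃ YB : Finset V,
      YB = Finset.univ.filter (fun a => a ∈ B ∧ a ∉ A ∩ B ∧ c a = false) := ⟨_, rfl⟩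
  have hXB' : ∀ a, a ∈ XB ↔ a ∈ B ∧ a ∉ A ∩ B ∧ c a = true := by
    intro a; rw [hXB, Finset.mem_filter]; simp
  have hYB' : ∀ a, a ∈ YB ↔ a ∈ B ∧ a ∉ A ∩ B ∧ c a = false := by
    intro a; rw [hYB, Finset.mem_filter]; simp
  have hXY : XB.card + YB.card ≤ Fintype.card V := by
    rw [← Finset.card_union_of_disjoint]
    · exact Finset.card_le_univ _
    · rw [Finset.disjoint_left]
      intro a ha hb
      have h1 := ((hXB' a).1 ha).2.2
      have h2 := ((hYB' a).1 hb).2.2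
      rw [h1] at h2
      exact absurd h2 (by decide)
  obtain ⟨Ψ, hΨ, hbad1, hbad2⟩ := SUM_choice H c B (A ∩ B) Set.inter_subset_right hn 𝔅 𝔅1 XB YB
    (fun a ha => (hXB' a).1 ha) (fun a ha => (hYB' a).1 ha) (fun e he => by
      rw [h𝔅1] at he
      exact (Finset.mem_filter.1 he).2)
  -- good edges
  obtain ⟨𝔊, h𝔊⟩ : ∃ 𝔊, 𝔊 = 𝔅1.filter (fun e => e.1 ∉ XB.image (Ψ e) ∧ e.2 ∉ YB.image (Ψ e)) :=
    ⟨_, rfl⟩
  have hgood : 𝔅1.card ≤ 𝔊.card + Fintype.card V * n := by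
    have h7 : 𝔅1 ⊆ 𝔊 ∪ (𝔅1.filter (fun e => e.1 ∈ XB.image (Ψ e)) ∪
        𝔅1.filter (fun e => e.2 ∈ YB.image (Ψ e))) := by
      intro e he
      rw [h𝔊, Finset.mem_union, Finset.mem_union, Finset.mem_filter, Finset.mem_filter,
        Finset.mem_filter]
      by_cases h8 : e.1 ∈ XB.image (Ψ e)
      · exact Or.inr (Or.inl ⟨he, h8⟩)
      · by_cases h9 : e.2 ∈ YB.image (Ψ e)
        · exact Or.inr (Or.inr ⟨he, h9⟩)
        · exact Or.inl ⟨he, h8, h9⟩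
    have h8 := (Finset.card_le_card h7).trans (Finset.card_union_le _ _)
    have h9 := Finset.card_union_le (𝔅1.filter (fun e => e.1 ∈ XB.image (Ψ e)))
      (𝔅1.filter (fun e => e.2 ∈ YB.image (Ψ e)))
    have h10 : XB.card * n + YB.card * n ≤ Fintype.card V * n := by
      rw [← add_mul]
      exact Nat.mul_le_mul_right n hXY
    omega
  obtain ⟨R, R', hRR⟩ := hAVG n (Fintype.card V) 𝔊 (fun e => XB.image (Ψ e))
    (fun e => YB.image (Ψ e)) (by
    intro e he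
    rw [h𝔊] at he
    obtain ⟨-, h1, h2⟩ := Finset.mem_filter.1 he
    exact ⟨h1, h2, (add_le_add Finset.card_image_le Finset.card_image_le).trans hXY⟩)
  obtain ⟨𝔉, h𝔉⟩ : ∃ 𝔉, 𝔉 = 𝔊.filter (fun e => e.1 ∈ R ∧ e.2 ∈ R' ∧
    Disjoint (XB.image (Ψ e)) R ∧ Disjoint (YB.image (Ψ e)) R') := ⟨_, rfl⟩
  have hRR' : 𝔊.card ≤ 2 ^ (Fintype.card V + 2) * 𝔉.card := by
    rw [h𝔉]
    exact hRR
  have h𝔉' : ∀ e ∈ 𝔉, e ∈ 𝔅1 ∧ e.1 ∈ R ∧ e.2 ∈ R' ∧ Disjoint (XB.image (Ψ e)) R ∧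
      Disjoint (YB.image (Ψ e)) R' := by
    intro e he
    rw [h𝔉, Finset.mem_filter] at he
    have h3 := he.1
    rw [h𝔊, Finset.mem_filter] at h3
    exact ⟨h3.1, he.2⟩
  have h1𝔅 : ∀ e ∈ 𝔅1, e ∈ 𝔅 := by
    intro e he
    rw [h𝔅1] at he
    exact (Finset.mem_filter.1 he).1
  have h1 : 𝔉.card ≤ exs n H c A := by
    refine (hle n A (exs n H c A)).1 le_rfl 𝔉 ?_
    rintro ⟨φ, hinj, hed⟩
    have he := hed a0 ha0 b0 hb0 hab0 hca0 hcb0
    obtain ⟨he1, heR, heR', hdS, hdT⟩ := h𝔉' _ he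
    obtain ⟨⟨hψi, hψe⟩, hψ1, hψ2⟩ := hΨ _ he1
    apply h𝔅
    refine SUM_comb H c hP T A B hT hno hA 𝔅 φ (Ψ (φ a0, φ b0)) R R' _ _ hdS hdT hinj ?_ hψi hψe
      ?_ ?_ ?_
    · intro a ha b hb hab hca hcb
      obtain ⟨h3, h4, h5, -, -⟩ := h𝔉' _ (hed a ha b hb hab hca hcb)
      exact ⟨h1𝔅 _ h3, h4, h5⟩
    · intro a ha
      cases hca : c a with
      | true => rw [hψ1 a ha hca, hKa0 a ha hca]
      | false => rw [hψ2 a ha hca, hKb0 a ha hca]
    · exact fun a ha haK hca => Finset.mem_image.2 ⟨a, (hXB' a).2 ⟨ha, haK, hca⟩, rfl⟩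
    · exact fun a ha haK hca => Finset.mem_image.2 ⟨a, (hYB' a).2 ⟨ha, haK, hca⟩, rfl⟩
  have h3 : 2 ^ (Fintype.card V + 2) * 𝔉.card ≤ 2 ^ (Fintype.card V + 2) * exs n H c A :=
    Nat.mul_le_mul_left _ h1
  omega

end Pool.Agent.GL
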