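import Pool.Agent.helper63.GL.AVG
import Pool.Agent.helper20.GL.BAS
import Pool.Agent.helper51.GL.EMB
import Pool.Agent.helper13.GL.FLP
import Pool.Agent.helper3.GL.RST
import Pool.Agent.helper8.GL.CUT
import Pool.Agent.helper57.GL.HST
import Pool.Agent.helper93.GL.ORI
import Pool.Agent.helper12.GL.SYM
import Pool.Agent.helper58.GL.SCL
import Pool.Agent.helper55.GL.SUM
import Pool.Agent.helper77.GL.JPR
import Pool.Agent.helper98.GL.JBD
import Pool.Agent.helper24.GL.SML
import Pool.Agent.helper72.GL.LOC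
import Pool.Agent.helper46.GL.SPR
import Pool.Agent.helper1.GL.QSM
import Pool.Agent.helper60.GL.ISO
import Pool.Agent.helper87.GL.ATM
import Pool.Agent.helper45.GL.TRV
import Pool.Agent.helper38.GL.ACN
import Pool.Agent.helper11.GL.CLS
import Pool.Agent.helper52.GL.UP1
import Pool.Agent.helper31.GL.LC4
import Pool.Agent.helper23.GL.NRM
import Pool.Agent.helper33.GL.LK3
import Pool.Agent.helper40.GL.CL3
import Pool.Agent.helper27.GL.SC3
import Pool.Agent.helper55.GL.FIN
import Pool.Agent.helper30.GL.CONN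
import Pool.Agent.helper19.GL.DG2
import Pool.Agent.helper92.GL.FRO
import Pool.Agent.helper89.GL.GLO
import Pool.Agent.helper70.GL.LIN
import Pool.Agent.helper66.GL.UP2

set_option autoImplicit false

namespace Pool.Agent.GL

open SimpleGraph

theorem aSUM : SUM_stmt := SUM BAS AVG
theorem aEMB : EMB_stmt := EMB BAS
theorem aFLP : FLP_stmt := FLP BAS
theorem aCUT : CUT_stmt := CUT BAS
theorem aSYM : SYM_stmt := SYM BAS HST ORI
theorem aSML : SML_stmt := SML LIN
theorem aJBD : JBD_stmt := JBD aSUM aEMB BAS JPR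
theorem aTRV : TRV_stmt := TRV BAS
theorem aQSM : QSM_stmt := QSM aSUM RST LIN
theorem aISO : ISO_stmt := ISO BAS RST
theorem aATM : ATM_stmt := ATM SPR aQSM aISO
theorem aLOC : LOC_stmt := LOC aCUT aJBD JPR aFLP aSML CON aSYM SCL
theorem aCLS : CLS_stmt := CLS aQSM aEMB
theorem aCL3 : CL3_stmt := CL3 DG2
theorem aLK3 : LK3_stmt := LK3 NRM
theorem aSC3 : SC3_stmt := SC3 aCL3 (UP1 BAS) (UP2 BAS) LC4 aLK3 aSYM SCL ACN aTRV
theorem aFIN : FIN_stmt := FIN FRO aATM aSC3 aFLP aCLS
theorem aGLO : GLO_stmt := GLO FRO aATM ACN aTRV aLOC aCUT aJBD aSML CON JPR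

end Pool.Agent.GL
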